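import Pool.Agent.H11.IC.Defs

/-!
# Smooth varieties are regular in codimension one
-/

set_option autoImplicit false

open CategoryTheory CategoryTheory.Limits AlgebraicGeometry

namespace Pool.Agent.H11.IC.CodimOne

/-- a local Noetherian integrally closed domain of dimension at most one has a principal maximal
ideal -/
theorem principal_of_dim {R : Type} [CommRing R] [IsDomain R] [IsNoetherianRing R] [IsLocalRing R]
    [IsIntegrallyClosed R] (h : Ring.KrullDimLE 1 R) :
    (IsLocalRing.maximalIdeal R).IsPrincipal := by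
  have key := ((tfae_of_isNoetherianRing_of_isLocalRing_of_isDomain R).out 3 4 :
    (IsIntegrallyClosed R ∧ ∀ P : Ideal R, P ≠ ⊥ → P.IsPrime → P = IsLocalRing.maximalIdeal R) ↔
      (IsLocalRing.maximalIdeal R).IsPrincipal)
  refine key.1 ⟨inferInstance, ?_⟩
  intro P hP hP'
  have h1 := Ring.krullDimLE_one_iff_of_isPrime_bot.1 h P hP hP'
  exact IsLocalRing.eq_maximalIdeal h1

theorem valuationRing_of_principal {R : Type} [CommRing R] [IsDomain R] [IsNoetherianRing R]
    [IsLocalRing R] (h : (IsLocalRing.maximalIdeal R).IsPrincipal) : ValuationRing R :=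
  ((tfae_of_isNoetherianRing_of_isLocalRing_of_isDomain R).out 4 1).1 h

/-- local rings of height at most one of an etale algebra over a normal Noetherian domain -/
theorem valuationRing_of_etale {A S : Type} [CommRing A] [IsDomain A] [IsNoetherianRing A]
    [IsIntegrallyClosed A] [CommRing S] [IsDomain S] [Algebra A S] [Algebra.Etale A S]
    (P : Ideal S) [P.IsPrime] (hP : P.height ≤ 1) : ValuationRing (Localization.AtPrime P) := by
  have hft : Algebra.FiniteType A S := inferInstance
  have : IsNoetherianRing S := Algebra.FiniteType.isNoetherianRing A S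
  let p : Ideal A := P.under A
  have hp : p.height ≤ 1 := by
    have h := Ideal.height_eq_height_add_of_liesOver_of_hasGoingDown p P
    exact le_trans (h ▸ le_self_add) hP
  have hint : IsIntegrallyClosed (Localization.AtPrime p) :=
    isIntegrallyClosed_of_isLocalization _ p.primeCompl p.primeCompl_le_nonZeroDivisors
  have hdim : Ring.KrullDimLE 1 (Localization.AtPrime p) := by
    rw [Ring.krullDimLE_iff, IsLocalization.AtPrime.ringKrullDim_eq_height p]
    exact_mod_cast hp
  obtain ⟨a, ha⟩ := (principal_of_dim hdim).principal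
  algebraize [Localization.localRingHom p P (algebraMap A S) rfl]
  refine valuationRing_of_principal ⟨algebraMap (Localization.AtPrime p) (Localization.AtPrime P) a, ?_⟩
  have h2 := ((Algebra.isUnramifiedAt_iff_map_eq A p P).1 inferInstance).2
  rw [← h2]
  rw [IsScalarTower.algebraMap_eq A (Localization.AtPrime p) (Localization.AtPrime P),
    ← Ideal.map_map, Localization.AtPrime.map_eq_maximalIdeal, ha]
  change Ideal.map _ (Ideal.span {a}) = Ideal.span _
  rw [Ideal.map_span, Set.image_singleton]

end Pool.Agent.H11.IC.CodimOne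

namespace Pool.Agent.H11.IC

open CodimOne

/-- the local rings of dimension at most one of a smooth integral complex scheme are valuation
rings -/
theorem valuationRing_stalk_of_smooth {X : CSch} (hi : IsIntegral X.left) (hs : Smooth X.hom)
    (x : X.left) (h : ¬ 2 ≤ ringKrullDim (X.left.presheaf.stalk x)) :
    ValuationRing (X.left.presheaf.stalk x) := by
  obtain ⟨U, hU, V, hV, hx, e, hstd⟩ := Smooth.exists_isStandardSmooth X.hom x
  obtain ⟨n, g, -, hgE⟩ := hstd.exists_etale_mvPolynomial
  have hUtop : U = ⊤ := by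
    rw [eq_top_iff]
    intro y _
    have h1 : X.hom x ∈ U := e hx
    rwa [Subsingleton.elim y (X.hom x)]
  subst hUtop
  have hK : IsField Γ(Spec (CommRingCat.of ℂ), ⊤) :=
    MulEquiv.isField (Field.toIsField ℂ)
      (Scheme.ΓSpecIso (CommRingCat.of ℂ)).commRingCatIsoToRingEquiv.toMulEquiv
  let _ : Field Γ(Spec (CommRingCat.of ℂ), ⊤) := hK.toField
  have : Nonempty V := ⟨⟨x, hx⟩⟩
  have hdom : IsDomain Γ(X.left, V) := inferInstance
  algebraize [g]
  let P := hV.primeIdealOf ⟨x, hx⟩
  have hloc := hV.isLocalization_stalk ⟨x, hx⟩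
  have hP : P.asIdeal.height ≤ 1 := by
    have h1 := @IsLocalization.AtPrime.ringKrullDim_eq_height _ _ P.asIdeal _
      (X.left.presheaf.stalk x) _ (_) hloc
    rw [h1] at h
    by_contra h2
    apply h
    have h3 : (2 : ℕ∞) ≤ P.asIdeal.height := by
      have h4 : (1 : ℕ∞) + 1 ≤ P.asIdeal.height := Order.add_one_le_of_lt (not_le.1 h2)
      exact h4
    have h5 : ((2 : ℕ∞) : WithBot ℕ∞) ≤ (P.asIdeal.height : WithBot ℕ∞) := WithBot.coe_le_coe.2 h3
    exact h5
  have hval := valuationRing_of_etale (A := MvPolynomial (Fin n) Γ(Spec (CommRingCat.of ℂ), ⊤))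
    (S := Γ(X.left, V)) P.asIdeal hP
  let _ : Algebra Γ(X.left, V) (X.left.presheaf.stalk x) :=
    TopCat.Presheaf.algebra_section_stalk X.left.presheaf ⟨x, hx⟩
  have hloc' : IsLocalization.AtPrime (X.left.presheaf.stalk x) P.asIdeal := hloc
  have ee := (IsLocalization.algEquiv P.asIdeal.primeCompl (Localization.AtPrime P.asIdeal)
    (X.left.presheaf.stalk x)).toRingEquiv
  exact Function.Surjective.valuationRing ee.toRingHom ee.surjective

end Pool.Agent.H11.IC
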