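import Pool.Agent.H11.IC.CodimOne
import Pool.Agent.H5.RCLift

/-!
# Inverses of birational morphisms are defined in codimension one
-/

set_option autoImplicit false

open CategoryTheory CategoryTheory.Limits AlgebraicGeometry

namespace Pool.Agent.H11.IC

theorem specStalk_specializes {X : Scheme.{0}} (U : X.Opens) {x y : X} (h : x ⤳ y) (hx : x ∈ U)
    (hy : y ∈ U) :
    Spec.map (X.presheaf.stalkSpecializes h) ≫ U.fromSpecStalkOfMem y hy =
      U.fromSpecStalkOfMem x hx := by
  rw [← cancel_mono U.ι, Category.assoc, Scheme.Opens.fromSpecStalkOfMem_ι,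
    Scheme.Opens.fromSpecStalkOfMem_ι]
  exact Scheme.SpecMap_stalkSpecializes_fromSpecStalk h

/-- a rational map to a proper scheme is defined where the local ring is a valuation ring -/
theorem mem_domain_of_valuationRing {C Y S : Scheme.{0}} (sC : C ⟶ S) (sY : Y ⟶ S) [IsProper sY]
    [IsIntegral C] (F : C.PartialMap Y) (hF : F.hom ≫ sY = F.domain.ι ≫ sC) (x : C)
    [ValuationRing (C.presheaf.stalk x)] : x ∈ F.toRationalMap.domain := by
  have hgen : genericPoint C ∈ F.domain :=
    (genericPoint_specializes _).mem_open F.domain.2 F.dense_domain.nonempty.choose_spec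
  have hsp : genericPoint C ⤳ x := genericPoint_specializes _
  have hsq : F.fromFunctionField ≫ sY =
      Spec.map (CommRingCat.ofHom (algebraMap (C.presheaf.stalk x) C.functionField)) ≫
        C.fromSpecStalk x ≫ sC := by
    change (F.domain.fromSpecStalkOfMem _ hgen ≫ F.hom) ≫ sY =
      Spec.map (C.presheaf.stalkSpecializes hsp) ≫ C.fromSpecStalk x ≫ sC
    rw [Category.assoc, hF, ← Category.assoc, Scheme.Opens.fromSpecStalkOfMem_ι, ← Category.assoc,
      Scheme.SpecMap_stalkSpecializes_fromSpecStalk]
  have hdom : IsDomain (C.presheaf.stalk x) := inferInstance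
  have hfrac : IsFractionRing (C.presheaf.stalk x) C.functionField := inferInstance
  let Sq : ValuativeCommSq sY :=
    { R := C.presheaf.stalk x
      domain := hdom
      K := C.functionField
      isFractionRing := hfrac
      i₁ := F.fromFunctionField
      i₂ := C.fromSpecStalk x ≫ sC
      commSq := ⟨hsq⟩ }
  have hval : ValuativeCriterion sY := by
    have h := (inferInstance : IsProper sY)
    rw [IsProper.eq_valuativeCriterion] at h
    exact h.1.1.1
  obtain ⟨⟨⟨l, hl1, hl2⟩⟩, -⟩ := (hval Sq)
  change Spec.map (CommRingCat.ofHom (algebraMap (C.presheaf.stalk x) C.functionField)) ≫ l =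
    F.fromFunctionField at hl1
  change l ≫ sY = C.fromSpecStalk x ≫ sC at hl2
  let G := Scheme.PartialMap.ofFromSpecStalk sC sY l hl2
  have hxG : x ∈ G.domain := Scheme.PartialMap.mem_domain_ofFromSpecStalk sC sY l hl2
  have hG : G.fromSpecStalkOfMem hxG = l :=
    Scheme.PartialMap.fromSpecStalkOfMem_ofFromSpecStalk sC sY l hl2
  have hgenG : genericPoint C ∈ G.domain := hsp.mem_open G.domain.2 hxG
  have he : G.fromSpecStalkOfMem hgenG = F.fromSpecStalkOfMem hgen := by
    have h1 : G.fromSpecStalkOfMem hgenG =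
        Spec.map (C.presheaf.stalkSpecializes hsp) ≫ G.fromSpecStalkOfMem hxG := by
      unfold Scheme.PartialMap.fromSpecStalkOfMem
      rw [← Category.assoc, specStalk_specializes]
    rw [h1, hG]
    exact hl1
  rw [Scheme.RationalMap.mem_domain]
  refine ⟨G, hxG, ?_⟩
  rw [Scheme.PartialMap.toRationalMap_eq_iff]
  exact Scheme.PartialMap.equiv_of_fromSpecStalkOfMem_eq G F hgenG hgen he

theorem isSeparated_of_isVar {X : CSch} (h : IsVar X) : X.left.IsSeparated := by
  have := Pool.Agent.H5.RCLift.proper_var h
  rw [Scheme.isSeparated_iff, ← terminal.comp_from X.hom]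
  infer_instance

/-- the inverse of a birational morphism of smooth projective varieties is defined outside a closed
subset of codimension two -/
theorem inverse_defined {X' X : CSch} (p : X' ⟶ X) (hX' : IsVar X') (hX : IsVar X)
    (hp : Birat p) : ∃ (U : X.left.Opens) (s : opn X U ⟶ X'),
      Codim2 (X := X) (U : Set X.left)ᶜ ∧ s ≫ p = opnι X U := by
  have := hX.integral
  have := Pool.Agent.H5.RCLift.proper_var hX'
  have := isSeparated_of_isVar hX
  have := isSeparated_of_isVar hX'
  obtain ⟨U, hUne, hU⟩ := hp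
  let F : X.left.PartialMap X'.left :=
    ⟨U, U.2.dense hUne, inv (p.left ∣_ U) ≫ (p.left ⁻¹ᵁ U).ι⟩
  have hFp : F.hom ≫ p.left = F.domain.ι := by
    change (inv (p.left ∣_ U) ≫ (p.left ⁻¹ᵁ U).ι) ≫ p.left = U.ι
    rw [Category.assoc, ← morphismRestrict_ι, IsIso.inv_hom_id_assoc]
  have hF : F.hom ≫ X'.hom = F.domain.ι ≫ X.hom := by
    rw [← Over.w p, ← Category.assoc, hFp]
  let W := F.toRationalMap.domain
  let G : W.toScheme ⟶ X'.left := F.toRationalMap.toPartialMap.hom
  have hG : G ≫ p.left = W.ι := by
    have h := Scheme.PartialMap.toPartialMap_toRationalMap_restrict F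
    change X.left.homOfLE F.le_domain_toRationalMap ≫ G = F.hom at h
    have hd : IsDominant (X.left.homOfLE F.le_domain_toRationalMap) :=
      Opens.isDominant_homOfLE F.dense_domain _
    refine ext_of_isDominant (ι := X.left.homOfLE F.le_domain_toRationalMap) ?_
    rw [← Category.assoc, h, hFp, Scheme.homOfLE_ι]
  have hGX : G ≫ X'.hom = W.ι ≫ X.hom := by
    rw [← Over.w p, ← Category.assoc, hG]
  refine ⟨W, Over.homMk G hGX, ?_, ?_⟩
  · intro x hx
    by_contra h
    have := valuationRing_stalk_of_smooth hX.integral hX.smooth x h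
    exact hx (mem_domain_of_valuationRing X.hom X'.hom F hF x)
  · ext : 1
    exact hG

end Pool.Agent.H11.IC
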