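import Pool.Agent.H11.IC.Lit
import Pool.Agent.H11.IC.Inverse

/-!
# The main argument
-/

set_option autoImplicit false

open CategoryTheory CategoryTheory.Limits AlgebraicGeometry

namespace Pool.Agent.H11.IC

theorem push_comp {X Y Z : CSch} (f : X ⟶ Y) (g : Y ⟶ Z) (a : HH X) :
    push (f ≫ g) a = push g (push f a) := by
  unfold push
  rw [H2.map_comp]
  rfl

/-- a morphism with image in an open set factors through it -/
theorem exists_lift {C X : CSch} (g : C ⟶ X) (U : X.left.Opens) (h : ∀ x : C.left, g.left x ∈ U) :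
    ∃ l : C ⟶ opn X U, l ≫ opnι X U = g := by
  have hr : Set.range g.left ⊆ Set.range U.ι := by
    rintro _ ⟨x, rfl⟩
    rw [Scheme.Opens.range_ι]
    exact h x
  obtain ⟨l, hl⟩ : ∃ l : C.left ⟶ (U : Scheme.{0}), l ≫ U.ι = g.left :=
    ⟨IsOpenImmersion.lift U.ι g.left hr, IsOpenImmersion.lift_fac _ _ _⟩
  have hw : l ≫ U.ι ≫ X.hom = C.hom := by
    rw [← Category.assoc, hl, Over.w g]
  refine ⟨Over.homMk (U := C) (V := opn X U) l hw, ?_⟩
  ext1
  exact hl

theorem res_opnι {X Y : CSch} (f : X ⟶ Y) (U : Y.left.Opens) :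
    res f U ≫ opnι Y U = opnι X (f.left ⁻¹ᵁ U) ≫ f := by
  ext1
  exact morphismRestrict_ι _ _

theorem Codim2.union {X : CSch} {A B : Set X.left} (hA : Codim2 (X := X) A)
    (hB : Codim2 (X := X) B) : Codim2 (X := X) (A ∪ B) := by
  rintro x (h | h)
  · exact hA x h
  · exact hB x h

/-- push-forward preserves algebraic classes -/
theorem push_mem_Alg {X Y : CSch} (f : X ⟶ Y) {a : HH X} (ha : a ∈ Alg X) : push f a ∈ Alg Y := by
  have h : Alg X ≤ (Alg Y).comap (push f) := by
    unfold Alg
    rw [AddSubgroup.closure_le]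
    rintro _ ⟨C, g, c, hC, rfl⟩
    refine AddSubgroup.subset_closure ⟨C, g ≫ f, c, hC, ?_⟩
    exact push_comp _ _ _
  exact h ha

/-- the `N`-fold fibre classes of `f` outside codimension two are algebraic -/
def FibAlg {X B : CSch} (N : ℕ) (f : X ⟶ B) : Prop :=
  ∃ U : B.left.Opens, Big U ∧
    ∀ b : Pt B, b.pt ∈ U → ∀ a : HH (fib f b), N • push (fibι f b) a ∈ Alg X

theorem push_surjective (L : Literature) {X' X : CSch} (p : X' ⟶ X) (hX' : IsVar X')
    (hX : IsVar X) (hp : Birat p) : Function.Surjective (push p) := by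
  obtain ⟨U, s, hU, hs⟩ := inverse_defined p hX' hX hp
  intro α
  obtain ⟨γ, rfl⟩ := (L.purity X U hX hU).2 α
  exact ⟨push s γ, by rw [← push_comp, hs]⟩

/-- the main argument -/
theorem core (L : Literature) (N : ℕ) {X B : CSch} (f : X ⟶ B) (r : ℕ) (hX : IsVar X)
    (hB : IsVar B) (hf : GenRC f r)
    (hfib : ∀ (X' B' : CSch) (f' : X' ⟶ B') (q : B' ⟶ B), IsVar X' → IsVar B' → Birat q →
      GenRC f' r → FibAlg N f') :
    Function.Surjective (push f) ∧ ∀ α : HH X, push f α ∈ Alg B → N • α ∈ Alg X := by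
  obtain ⟨X', B', p, q, f', hX', hB', hp, hq, hf', hsq, hneat⟩ := L.neat_model f r hX hB hf
  obtain ⟨U₁, hU₁, hsc⟩ := L.simply_connected_fibres f' r hX' hB' hf'
  obtain ⟨U₂, hU₂, halg⟩ := hfib X' B' f' q hX' hB' hq hf'
  set U : B'.left.Opens := U₁ ⊓ U₂ with hUdef
  have hUc : (U : Set B'.left)ᶜ = (U₁ : Set B'.left)ᶜ ∪ (U₂ : Set B'.left)ᶜ := by
    rw [hUdef, TopologicalSpace.Opens.coe_inf, Set.compl_inter]
  have hU : Big U := by
    unfold Big
    rw [hUc]
    exact Codim2.union hU₁ hU₂
  set V : X'.left.Opens := f'.left ⁻¹ᵁ U with hV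
  obtain ⟨W, hWc, hW2, hW⟩ := hneat _ U.isOpen.isClosed_compl hU
  obtain ⟨hler, hker⟩ := L.leray f' U hX' hB' (fun b hb => hsc b hb.1)
  have hpurU := L.purity B' U hB' hU
  -- the `N`-fold of a class on `V` whose image in `B'` is algebraic is algebraic
  have key : ∀ v : HH (opn X' V), push f' (push (opnι X' V) v) ∈ Alg B' →
      N • push (opnι X' V) v ∈ Alg X' := by
    intro v hv
    obtain ⟨O, hO, hORC⟩ := hf'
    have hv2 := L.moving U O hB' hU hO hv
    have hw : ∃ w : HH (opn X' V), push (opnι X' V) w ∈ Alg X' ∧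
        push f' (push (opnι X' V) w) = push f' (push (opnι X' V) v) := by
      revert hv2
      generalize push f' (push (opnι X' V) v) = a
      intro ha
      induction ha using AddSubgroup.closure_induction with
      | mem a ha =>
        obtain ⟨C, g, c, hC, hgU, hgO, rfl⟩ := ha
        obtain ⟨s, hs⟩ := L.graber_harris_starr f' g O hX' hB' hC
          (fun b hb => ⟨(hORC b hb).1, (hORC b hb).2.1⟩) hgO
        obtain ⟨l, hl⟩ := exists_lift s V (by
          intro x
          change f'.left (s.left x) ∈ U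
          have h1 := hgU x
          rw [← hs] at h1
          exact h1)
        refine ⟨push l c, ?_, ?_⟩
        · rw [← push_comp, hl]
          exact AddSubgroup.subset_closure ⟨C, s, c, hC, rfl⟩
        · rw [← push_comp l, hl, ← push_comp s, hs]
      | zero => exact ⟨0, by rw [map_zero]; exact zero_mem _, by rw [map_zero, map_zero]⟩
      | add a b _ _ ha hb =>
        obtain ⟨w, hw1, hw2⟩ := ha
        obtain ⟨w', hw1', hw2'⟩ := hb
        exact ⟨w + w', by rw [map_add]; exact add_mem hw1 hw1', by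
          rw [map_add, map_add, hw2, hw2']⟩
      | neg a _ ha =>
        obtain ⟨w, hw1, hw2⟩ := ha
        exact ⟨-w, by rw [map_neg]; exact neg_mem hw1, by rw [map_neg, map_neg, hw2]⟩
    obtain ⟨w, hw1, hw2⟩ := hw
    have h0 : push (res f' U) (v - w) = 0 := by
      apply hpurU.1
      rw [map_zero, ← push_comp, res_opnι, push_comp, map_sub, map_sub]
      change push f' (push (opnι X' V) v) - push f' (push (opnι X' V) w) = 0
      rw [hw2, sub_self]
    have h1 := hker (v - w) h0
    have h2 : (⨆ b : {b : Pt B' // b.pt ∈ U}, (push (fibι f' b.1)).range) ≤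
        (Alg X').comap (nsmulAddMonoidHom N) := by
      refine iSup_le ?_
      rintro ⟨b, hb⟩
      rintro _ ⟨a, rfl⟩
      exact halg b hb.2 a
    have h3 : N • push (opnι X' V) (v - w) ∈ Alg X' := h2 h1
    have h4 : N • push (opnι X' V) v =
        N • push (opnι X' V) (v - w) + N • push (opnι X' V) w := by
      rw [← nsmul_add, ← map_add, sub_add_cancel]
    rw [h4]
    exact add_mem h3 (nsmul_mem hw1 N)
  -- `H_2(V) → H_2(X)` is surjective
  have hsurjX : ∀ α : HH X, ∃ v : HH (opn X' V), push p (push (opnι X' V) v) = α := by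
    intro α
    obtain ⟨U₃, s₃, hU₃, hs₃⟩ := inverse_defined p hX' hX hp
    set O : X.left.Opens := U₃ ⊓ ⟨Wᶜ, hWc.isOpen_compl⟩ with hO
    have hOc : Big O := by
      unfold Big
      rw [hO, TopologicalSpace.Opens.coe_inf, Set.compl_inter]
      refine Codim2.union hU₃ ?_
      change Codim2 (X := X) (Wᶜᶜ)
      rw [compl_compl]
      exact hW2
    obtain ⟨i, hi⟩ := exists_lift (opnι X O) U₃ (by
      intro x
      have h1 : (opnι X O).left x ∈ O := by
        change O.ι x ∈ O
        exact x.2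
      exact h1.1)
    obtain ⟨t, ht⟩ := exists_lift (i ≫ s₃) V (by
      intro x
      change f'.left ((i ≫ s₃).left x) ∈ U
      by_contra hx
      have h1 : (i ≫ s₃).left x ∈ p.left ⁻¹' W := hW hx
      have h2 : p.left ((i ≫ s₃).left x) = (opnι X O).left x := by
        have h3 : (i ≫ s₃) ≫ p = opnι X O := by rw [Category.assoc, hs₃, hi]
        rw [← h3]
        rfl
      have h4 : (opnι X O).left x ∈ O := by
        change O.ι x ∈ O
        exact x.2
      rw [Set.mem_preimage, h2] at h1
      exact h4.2 h1)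
    obtain ⟨γ, rfl⟩ := (L.purity X O hX hOc).2 α
    refine ⟨push t γ, ?_⟩
    rw [← push_comp t, ht, ← push_comp, Category.assoc, hs₃, hi]
  refine ⟨?_, ?_⟩
  · intro β
    obtain ⟨β', rfl⟩ := push_surjective L q hB' hB hq β
    obtain ⟨u, rfl⟩ := hpurU.2 β'
    obtain ⟨v, rfl⟩ := hler u
    refine ⟨push p (push (opnι X' V) v), ?_⟩
    rw [← push_comp p f, hsq, push_comp f' q, ← push_comp _ f', ← res_opnι, push_comp]
  · intro α hα
    obtain ⟨v, rfl⟩ := hsurjX α
    rw [← push_comp p f, hsq, push_comp f' q] at hα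
    have h1 := push_mem_Alg p (key v (L.birational q hB' hB hq _ hα))
    rwa [map_nsmul] at h1

end Pool.Agent.H11.IC
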