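import Mathlib

/-!
# Complex varieties, analytic topology, singular homology, algebraic classes

MP_002cd3_ag.  All objects are concrete: schemes over `Spec ℂ`, the set of complex points with its
analytic topology, singular homology, smooth projective varieties, curves, rationally connected
varieties, fibres, birational morphisms.
-/

set_option autoImplicit false

open CategoryTheory CategoryTheory.Limits AlgebraicGeometry

namespace Pool.Agent.H11.IC

/-- schemes over the complex numbers -/
abbrev CSch : Type 1 := Over (Spec (CommRingCat.of ℂ))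

/-! ### The analytic topology -/

/-- complex points -/
def Pt (X : CSch) : Type := {x : Spec (CommRingCat.of ℂ) ⟶ X.left // x ≫ X.hom = 𝟙 _}

/-- the underlying point of the scheme -/
noncomputable def Pt.pt {X : CSch} (x : Pt X) : X.left := x.1 (IsLocalRing.closedPoint ℂ)

/-- the value of a regular function at a complex point -/
noncomputable def value {X : CSch} (x : Pt X) {U : X.left.Opens} (h : ⊤ ≤ x.1 ⁻¹ᵁ U)
    (g : Γ(X.left, U)) : ℂ :=
  (Scheme.ΓSpecIso (CommRingCat.of ℂ)).hom (x.1.appLE U ⊤ h g)

/-- the points of the Zariski open set `U` at which the regular function `g` has its value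
in `W` -/
def locus {X : CSch} (U : X.left.Opens) (g : Γ(X.left, U)) (W : Set ℂ) : Set (Pt X) :=
  Set.ofPred fun x => ∃ h : ⊤ ≤ x.1 ⁻¹ᵁ U, value x h g ∈ W

/-- the sets of the points of a Zariski open set at which a regular function has its value in an
open set of complex numbers -/
def basicSets (X : CSch) : Set (Set (Pt X)) :=
  Set.ofPred fun S => ∃ (U : X.left.Opens) (g : Γ(X.left, U)) (W : Set ℂ), IsOpen W ∧ S = locus U g W

/-- the analytic topology on the complex points -/
instance (X : CSch) : TopologicalSpace (Pt X) := TopologicalSpace.generateFrom (basicSets X)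

/-- the map on complex points -/
noncomputable def mapPt {X Y : CSch} (f : X ⟶ Y) (x : Pt X) : Pt Y :=
  ⟨x.1 ≫ f.left, by rw [Category.assoc, Over.w f, x.2]⟩

theorem continuous_mapPt {X Y : CSch} (f : X ⟶ Y) : Continuous (mapPt f) := by
  refine continuous_generateFrom_iff.2 ?_
  rintro S ⟨U, g, W, hW, rfl⟩
  refine TopologicalSpace.isOpen_generateFrom_of_mem ?_
  refine ⟨f.left ⁻¹ᵁ U, f.left.app U g, W, hW, ?_⟩
  ext x
  have key : ∀ (h : ⊤ ≤ (mapPt f x).1 ⁻¹ᵁ U) (h' : ⊤ ≤ x.1 ⁻¹ᵁ (f.left ⁻¹ᵁ U)),
      value (mapPt f x) h g = value x h' (f.left.app U g) := by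
    intro h h'
    unfold value
    have e : (mapPt f x).1.appLE U ⊤ h = f.left.app U ≫ x.1.appLE (f.left ⁻¹ᵁ U) ⊤ h' :=
      Scheme.Hom.comp_appLE _ _ _ _ _
    rw [e]
    rfl
  constructor
  · rintro ⟨h, hx⟩
    exact ⟨h, key h h ▸ hx⟩
  · rintro ⟨h, hx⟩
    exact ⟨h, (key h h).symm ▸ hx⟩

/-- the complex points with the analytic topology, as a functor -/
noncomputable def an : CSch ⥤ TopCat.{0} where
  obj X := TopCat.of (Pt X)
  map f := TopCat.ofHom ⟨mapPt f, continuous_mapPt f⟩
  map_id X := by
    ext x
    exact Subtype.ext (Category.comp_id _)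
  map_comp f g := by
    ext x
    exact Subtype.ext (Category.assoc _ _ _).symm

/-- second singular homology with integral coefficients of the complex points, as a functor -/
noncomputable def H2 : CSch ⥤ AddCommGrpCat.{0} :=
  an ⋙ (AlgebraicTopology.singularHomologyFunctor AddCommGrpCat.{0} 2).obj (AddCommGrpCat.of ℤ)

/-- the group `H_2(X(ℂ), ℤ)` -/
abbrev HH (X : CSch) : Type := H2.obj X

/-- the homomorphism `f_* : H_2(X(ℂ), ℤ) → H_2(Y(ℂ), ℤ)` -/
noncomputable def push {X Y : CSch} (f : X ⟶ Y) : HH X →+ HH Y := (H2.map f).hom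

/-! ### Varieties -/

attribute [local instance] MvPolynomial.gradedAlgebra in
/-- projective space of dimension `n` over the complex numbers -/
noncomputable def PP (n : ℕ) : CSch :=
  Over.mk (Proj.toSpecZero (MvPolynomial.homogeneousSubmodule (Fin (n + 1)) ℂ) ≫
    Spec.map (CommRingCat.ofHom
      (algebraMap ℂ (MvPolynomial.homogeneousSubmodule (Fin (n + 1)) ℂ 0))))

/-- smooth projective complex varieties (irreducible) -/
structure IsVar (X : CSch) : Prop where
  /-- reduced and irreducible -/
  integral : IsIntegral X.left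
  /-- smooth over the complex numbers -/
  smooth : Smooth X.hom
  /-- projective over the complex numbers -/
  projective : ∃ (n : ℕ) (i : X ⟶ PP n), IsClosedImmersion i.left

/-- the dimension -/
noncomputable def dim (X : CSch) : WithBot ℕ∞ := topologicalKrullDim X.left

/-- smooth projective curves -/
def IsCurve (X : CSch) : Prop := IsVar X ∧ dim X = 1

/-- all components have codimension at least two -/
def Codim2 {X : CSch} (W : Set X.left) : Prop :=
  ∀ x ∈ W, 2 ≤ ringKrullDim (X.left.presheaf.stalk x)

/-- the point `(x, y)` of the product `X × X` -/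
noncomputable def pairPt {X : CSch} (x y : Pt X) : (pullback X.hom X.hom : Scheme.{0}) :=
  (pullback.lift x.1 y.1 (x.2.trans y.2.symm)) (IsLocalRing.closedPoint ℂ)

/-- rationally connected: two general points lie on a rational curve -/
def IsRC (X : CSch) : Prop :=
  ∃ U : (pullback X.hom X.hom : Scheme.{0}).Opens,
    (U : Set (pullback X.hom X.hom : Scheme.{0})).Nonempty ∧
    ∀ x y : Pt X, pairPt x y ∈ U →
      ∃ (g : PP 1 ⟶ X) (s t : Pt (PP 1)), mapPt g s = x ∧ mapPt g t = y

/-! ### Algebraic classes -/

/-- the subgroup of `H_2(X, ℤ)` generated by the classes of algebraic curves -/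
noncomputable def Alg (X : CSch) : AddSubgroup (HH X) :=
  AddSubgroup.closure {a | ∃ (C : CSch) (g : C ⟶ X) (c : HH C), IsCurve C ∧ push g c = a}

/-- all of `H_2(X, ℤ)` is algebraic -/
def Q1 (X : CSch) : Prop := Alg X = ⊤

/-! ### Open subsets, fibres -/

/-- a Zariski open subset as a scheme over `ℂ` -/
noncomputable def opn (X : CSch) (U : X.left.Opens) : CSch := Over.mk (U.ι ≫ X.hom)

/-- the inclusion of an open subset -/
noncomputable def opnι (X : CSch) (U : X.left.Opens) : opn X U ⟶ X := Over.homMk U.ι rfl

/-- the restriction of a morphism over an open subset of the target -/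
noncomputable def res {X Y : CSch} (f : X ⟶ Y) (U : Y.left.Opens) :
    opn X (f.left ⁻¹ᵁ U) ⟶ opn Y U :=
  Over.homMk (f.left ∣_ U) (by
    change (f.left ∣_ U) ≫ U.ι ≫ Y.hom = (f.left ⁻¹ᵁ U).ι ≫ X.hom
    rw [← Category.assoc, morphismRestrict_ι, Category.assoc, Over.w f])

/-- the (scheme theoretic) fibre over a complex point -/
noncomputable def fib {X Y : CSch} (f : X ⟶ Y) (b : Pt Y) : CSch :=
  Over.mk (pullback.snd f.left b.1)

/-- the inclusion of the fibre -/
noncomputable def fibι {X Y : CSch} (f : X ⟶ Y) (b : Pt Y) : fib f b ⟶ X :=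
  Over.homMk (pullback.fst f.left b.1) (by
    change pullback.fst f.left b.1 ≫ X.hom = pullback.snd f.left b.1
    rw [← Over.w f, ← Category.assoc, pullback.condition, Category.assoc, b.2, Category.comp_id])

/-- birational morphisms -/
def Birat {X Y : CSch} (p : X ⟶ Y) : Prop :=
  ∃ U : Y.left.Opens, (U : Set Y.left).Nonempty ∧ IsIso (p.left ∣_ U)

/-- the general fibres are smooth projective rationally connected varieties of dimension at
most `r` -/
def GenRC {X Y : CSch} (f : X ⟶ Y) (r : ℕ) : Prop :=
  ∃ U : Y.left.Opens, (U : Set Y.left).Nonempty ∧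
    ∀ b : Pt Y, b.pt ∈ U → IsVar (fib f b) ∧ IsRC (fib f b) ∧ dim (fib f b) ≤ r

/-- there is a dominant rational map from `X` to `B` whose general fibres are rationally connected
of dimension at most `r`, given by a smooth projective model of its graph -/
def RatFib (X B : CSch) (r : ℕ) : Prop :=
  ∃ (X₁ : CSch) (p : X₁ ⟶ X) (f : X₁ ⟶ B), IsVar X₁ ∧ Birat p ∧ GenRC f r

end Pool.Agent.H11.IC
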