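import Pool.Agent.H11.IC.Defs

/-!
# The published theorems used in the proof

All of them are statements about the concrete objects of `Defs`.
-/

set_option autoImplicit false

open CategoryTheory CategoryTheory.Limits AlgebraicGeometry

namespace Pool.Agent.H11.IC

/-- Q1 in all dimensions up to `n` -/
def V (n : ℕ) : Prop := ∀ X : CSch, IsVar X → IsRC X → dim X ≤ n → Q1 X

/-- all classes are algebraic on the fibrations over curves with rationally connected general
fibres of dimension at most `r` -/
def T (r : ℕ) : Prop :=
  ∀ (Y Γ : CSch) (g : Y ⟶ Γ), IsVar Y → IsCurve Γ → GenRC g r → Q1 Y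

/-- a Zariski open subset whose complement has codimension at least two -/
def Big {X : CSch} (U : X.left.Opens) : Prop := Codim2 (X := X) (U : Set X.left)ᶜ

/-- `p` maps the preimages under `f` of closed sets of codimension two into closed sets of
codimension two -/
def Neat {X' X B' : CSch} (p : X' ⟶ X) (f : X' ⟶ B') : Prop :=
  ∀ Z : Set B'.left, IsClosed Z → Codim2 Z →
    ∃ W : Set X.left, IsClosed W ∧ Codim2 W ∧ f.left ⁻¹' Z ⊆ p.left ⁻¹' W

/-- NEAT MODELS. [Raynaud, Gruson, Inventiones Math. 13 (1971): flattening by blowing up]
together with [Hironaka 1964]; the statement is [Viehweg, Weak positivity and the additivity of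
the Kodaira dimension, Adv. Stud. Pure Math. 1 (1983), Lemma 7.3]: after birational modifications
of `X` and `B` every divisor of `X'` whose image in `B'` has codimension at least two is
exceptional over `X`. -/
def NeatModels : Prop :=
  ∀ {X B : CSch} (f : X ⟶ B) (r : ℕ), IsVar X → IsVar B → GenRC f r →
    ∃ (X' B' : CSch) (p : X' ⟶ X) (q : B' ⟶ B) (f' : X' ⟶ B'), IsVar X' ∧ IsVar B' ∧
      Birat p ∧ Birat q ∧ GenRC f' r ∧ p ≫ f = f' ≫ q ∧ Neat p f'

/-- PURITY: a closed subset of complex codimension two of a complex manifold has real codimension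
four, so that removing it does not change `H_2`. -/
def Purity : Prop :=
  ∀ (X : CSch) (U : X.left.Opens), IsVar X → Big U → Function.Bijective (push (opnι X U))

/-- LERAY SPECTRAL SEQUENCE of a proper morphism over an open set of the base over which all
fibres are connected and simply connected: `H_2(f⁻¹ U) → H_2(U)` is surjective, and its kernel is
generated by the classes on the fibres. -/
def Leray : Prop :=
  ∀ {X B : CSch} (f : X ⟶ B) (U : B.left.Opens), IsVar X → IsVar B →
    (∀ b : Pt B, b.pt ∈ U → SimplyConnectedSpace (Pt (fib f b))) →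
    Function.Surjective (push (res f U)) ∧
    ∀ α : HH (opn X (f.left ⁻¹ᵁ U)), push (res f U) α = 0 →
      push (opnι X (f.left ⁻¹ᵁ U)) α ∈
        ⨆ b : {b : Pt B // b.pt ∈ U}, (push (fibι f b.1)).range

/-- SIMPLE CONNECTEDNESS of the fibres outside codimension two. [Kollar, Shafarevich maps and
plurigenera of algebraic varieties, Inventiones Math. 113 (1993)], with
[Graber, Harris, Starr 2003] -/
def SimplyConnectedFibres : Prop :=
  ∀ {X B : CSch} (f : X ⟶ B) (r : ℕ), IsVar X → IsVar B → GenRC f r →
    ∃ U : B.left.Opens, Big U ∧ ∀ b : Pt B, b.pt ∈ U → SimplyConnectedSpace (Pt (fib f b))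

/-- BERTINI: outside codimension two the fibres lie in smooth slices over smooth curves. -/
def Slices : Prop :=
  ∀ {X B : CSch} (f : X ⟶ B) (r : ℕ), IsVar X → IsVar B → GenRC f r →
    ∃ U : B.left.Opens, Big U ∧ ∀ b : Pt B, b.pt ∈ U →
      ∃ (Y Γ : CSch) (g : Y ⟶ Γ) (j : Y ⟶ X) (k : fib f b ⟶ Y),
        IsVar Y ∧ IsCurve Γ ∧ GenRC g r ∧ k ≫ j = fibι f b

/-- Slices over very free rational curves if the base is rationally connected.
[Kollar, Miyaoka, Mori 1992; Graber, Harris, Starr 2003] -/
def RationalSlices : Prop :=
  ∀ {X B : CSch} (f : X ⟶ B) (r : ℕ), IsVar X → IsVar B → IsRC B → GenRC f r →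
    ∃ U : B.left.Opens, Big U ∧ ∀ b : Pt B, b.pt ∈ U →
      ∃ (Y : CSch) (j : Y ⟶ X) (k : fib f b ⟶ Y),
        IsVar Y ∧ IsRC Y ∧ dim Y ≤ (r + 1 : ℕ) ∧ k ≫ j = fibι f b

/-- [Graber, Harris, Starr, Families of rationally connected varieties, J. Amer. Math. Soc. 16
(2003)] -/
def GraberHarrisStarr : Prop :=
  ∀ {X B C : CSch} (f : X ⟶ B) (g : C ⟶ B) (U : B.left.Opens),
    IsVar X → IsVar B → IsCurve C → (∀ b : Pt B, b.pt ∈ U → IsVar (fib f b) ∧ IsRC (fib f b)) →
    (∃ x : C.left, g.left x ∈ U) → ∃ s : C ⟶ X, s ≫ f = g

/-- the classes of the curves which lie in `U` and meet `V` -/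
def curvesIn {B : CSch} (U V : B.left.Opens) : Set (HH B) :=
  {a | ∃ (C : CSch) (g : C ⟶ B) (c : HH C), IsCurve C ∧
    (∀ x : C.left, g.left x ∈ U) ∧ (∃ x : C.left, g.left x ∈ V) ∧ push g c = a}

/-- MOVING LEMMA of Chow for one-cycles: the algebraic classes are generated by the curves which
avoid a given closed set of codimension two and meet a given nonempty open set. -/
def Moving : Prop :=
  ∀ {B : CSch} (U V : B.left.Opens), IsVar B → Big U → (V : Set B.left).Nonempty →
    Alg B ≤ AddSubgroup.closure (curvesIn U V)

/-- BIRATIONAL INVARIANCE of the group of curve classes modulo algebraic classes (blow-up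
formula and resolution of indeterminacies by blow-ups). -/
def BirationalInvariance : Prop :=
  ∀ {X' X : CSch} (p : X' ⟶ X), IsVar X' → IsVar X → Birat p →
    ∀ α : HH X', push p α ∈ Alg X → α ∈ Alg X'

/-- Published theorems about smooth projective complex varieties. -/
structure Literature : Prop where
  /-- flattening -/
  neat_model : NeatModels
  /-- purity -/
  purity : Purity
  /-- the Leray spectral sequence -/
  leray : Leray
  /-- simple connectedness of fibres -/
  simply_connected_fibres : SimplyConnectedFibres
  /-- slices over curves -/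
  slices : Slices
  /-- slices over rational curves -/
  rational_slices : RationalSlices
  /-- the theorem of Graber, Harris and Starr -/
  graber_harris_starr : GraberHarrisStarr
  /-- the moving lemma -/
  moving : Moving
  /-- birational invariance -/
  birational : BirationalInvariance
  /-- Fibrations over curves in rationally connected varieties of dimension at most three.
  [Voisin, On integral Hodge classes on uniruled or Calabi-Yau threefolds, Adv. Stud. Pure
  Math. 45 (2006)] for dimension at most two, and for dimension three [Z. Tian, Zero cycles on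
  rationally connected varieties over Laurent fields, arXiv:2010.04996] -/
  tian : T 3

end Pool.Agent.H11.IC
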