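import Pool.Agent.H11.IC.Defs
import Mathlib.AlgebraicGeometry.AlgClosed.Basic

/-!
# Fibrations over the point

The morphism from a rationally connected variety to the point is a fibration with rationally
connected general fibres, and `H_2` of the point vanishes.
-/

set_option autoImplicit false

open CategoryTheory CategoryTheory.Limits AlgebraicGeometry

namespace Pool.Agent.H11.IC

/-- the point -/
noncomputable def ptC : CSch := Over.mk (𝟙 (Spec (CommRingCat.of ℂ)))

theorem IsVar.exists_pt {X : CSch} (h : IsVar X) : Nonempty (Pt X) := by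
  have := h.integral
  have := h.smooth
  have hj : JacobsonSpace X.left := LocallyOfFiniteType.jacobsonSpace X.hom
  have h1 := JacobsonSpace.closure_inter_closedPoints_eq_closure
    (S := (Set.univ : Set X.left)) isClosed_univ.isLocallyClosed
  have h2 : (Set.univ ∩ closedPoints X.left).Nonempty := by
    rw [Set.nonempty_iff_ne_empty]
    intro h3
    rw [h3, closure_empty, closure_univ] at h1
    exact Set.empty_ne_univ h1
  obtain ⟨x, -, hx⟩ := h2
  exact ⟨(pointEquivClosedPoint X.hom).symm ⟨x, hx⟩⟩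

theorem subsingleton_pt : Subsingleton (Pt ptC) := by
  constructor
  intro x y
  have hx := x.2
  have hy := y.2
  apply Subtype.ext
  change x.1 ≫ 𝟙 _ = 𝟙 _ at hx
  change y.1 ≫ 𝟙 _ = 𝟙 _ at hy
  rw [Category.comp_id] at hx hy
  rw [hx, hy]

theorem isVar_ptC {X : CSch} (h : IsVar X) : IsVar ptC := by
  obtain ⟨x, hx⟩ := h.exists_pt
  obtain ⟨n, i, hi⟩ := h.projective
  have := h.smooth
  refine ⟨?_, ?_, n, Over.homMk (U := ptC) (V := PP n) (x ≫ i.left) ?_, ?_⟩
  · change IsIntegral (Spec (CommRingCat.of ℂ))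
    infer_instance
  · change Smooth (𝟙 (Spec (CommRingCat.of ℂ)))
    infer_instance
  · change (x ≫ i.left) ≫ (PP n).hom = 𝟙 _
    rw [Category.assoc, Over.w i]
    exact hx
  · have : IsClosedImmersion x := isClosedImmersion_of_comp_eq_id _ _ hx
    change IsClosedImmersion (x ≫ i.left)
    infer_instance

theorem isIso_left {X Y : CSch} (f : X ⟶ Y) [IsIso f] : IsIso f.left := by
  change IsIso ((Over.forget _).map f)
  infer_instance

theorem IsVar.of_iso {X Y : CSch} (e : X ≅ Y) (h : IsVar X) : IsVar Y := by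
  obtain ⟨n, i, hi⟩ := h.projective
  have := h.integral
  have := h.smooth
  have h1 : IsIso e.inv.left := isIso_left e.inv
  have h0 : IsIso e.hom.left := isIso_left e.hom
  refine ⟨?_, ?_, n, e.inv ≫ i, ?_⟩
  · have : Nonempty Y.left := ⟨e.hom.left (Classical.arbitrary X.left)⟩
    exact isIntegral_of_isOpenImmersion e.inv.left
  · rw [← Over.w e.inv]
    infer_instance
  · rw [Over.comp_left]
    infer_instance

theorem dim_of_iso {X Y : CSch} (e : X ≅ Y) : dim Y = dim X := by
  unfold dim
  have h1 : IsIso e.inv.left := isIso_left e.inv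
  exact IsHomeomorph.topologicalKrullDim_eq _ e.inv.left.homeomorph.isHomeomorph

theorem pairPt_map {X Y : CSch} (e : X ⟶ Y) (x y : Pt X) :
    (pullback.map X.hom X.hom Y.hom Y.hom e.left e.left (𝟙 _) (by rw [Category.comp_id, Over.w e])
      (by rw [Category.comp_id, Over.w e])) (pairPt x y) = pairPt (mapPt e x) (mapPt e y) := by
  have h : (pullback.lift x.1 y.1 (x.2.trans y.2.symm)) ≫
      (pullback.map X.hom X.hom Y.hom Y.hom e.left e.left (𝟙 _) (by rw [Category.comp_id, Over.w e])
      (by rw [Category.comp_id, Over.w e])) =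
      pullback.lift (mapPt e x).1 (mapPt e y).1 ((mapPt e x).2.trans (mapPt e y).2.symm) := by
    apply pullback.hom_ext
    · rw [Category.assoc, pullback.map, pullback.lift_fst, pullback.lift_fst, ← Category.assoc,
        pullback.lift_fst]
      rfl
    · rw [Category.assoc, pullback.map, pullback.lift_snd, pullback.lift_snd, ← Category.assoc,
        pullback.lift_snd]
      rfl
  exact (Scheme.Hom.comp_apply _ _ _).symm.trans (congrArg (fun k => k (IsLocalRing.closedPoint ℂ)) h)

theorem mapPt_comp {X Y Z : CSch} (f : X ⟶ Y) (g : Y ⟶ Z) (x : Pt X) :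
    mapPt (f ≫ g) x = mapPt g (mapPt f x) :=
  Subtype.ext (Category.assoc _ _ _).symm

theorem mapPt_id {X : CSch} (x : Pt X) : mapPt (𝟙 X) x = x :=
  Subtype.ext (Category.comp_id _)

theorem IsRC.of_iso {X Y : CSch} (e : X ≅ Y) (h : IsRC X) : IsRC Y := by
  obtain ⟨U, hU, hx⟩ := h
  have hi : IsIso e.inv.left := isIso_left e.inv
  let m : (pullback Y.hom Y.hom : Scheme.{0}) ⟶ (pullback X.hom X.hom : Scheme.{0}) :=
    pullback.map Y.hom Y.hom X.hom X.hom e.inv.left e.inv.left (𝟙 _)
      (by rw [Category.comp_id, Over.w e.inv]) (by rw [Category.comp_id, Over.w e.inv])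
  have hm : IsIso m := pullback.map_isIso _ _ _ _ _ _ _ _ _
  refine ⟨m ⁻¹ᵁ U, ?_, fun x y hxy => ?_⟩
  · obtain ⟨u, hu⟩ := hU
    obtain ⟨v, hv⟩ := m.surjective u
    exact ⟨v, show m v ∈ U from hv ▸ hu⟩
  · have h1 : pairPt (mapPt e.inv x) (mapPt e.inv y) ∈ U := by
      rw [← pairPt_map]
      exact hxy
    obtain ⟨g, s, t, hs, ht⟩ := hx _ _ h1
    refine ⟨g ≫ e.hom, s, t, ?_, ?_⟩
    · rw [mapPt_comp, hs, ← mapPt_comp, e.inv_hom_id, mapPt_id]
    · rw [mapPt_comp, ht, ← mapPt_comp, e.inv_hom_id, mapPt_id]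

/-- the morphism to the point -/
noncomputable def toPt (X : CSch) : X ⟶ ptC := Over.homMk (U := X) (V := ptC) X.hom (by
  change X.hom ≫ 𝟙 _ = X.hom
  rw [Category.comp_id])

theorem isIso_fibι (X : CSch) (b : Pt ptC) : IsIso (fibι (toPt X) b) := by
  have hb : b.1 = 𝟙 _ := by
    have h := b.2
    change b.1 ≫ 𝟙 _ = 𝟙 _ at h
    rwa [Category.comp_id] at h
  have h1 : IsIso b.1 := by
    rw [hb]
    exact IsIso.id _
  have h2 : IsIso (fibι (toPt X) b).left := by
    change IsIso (pullback.fst (toPt X).left b.1)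
    infer_instance
  have h3 : IsIso ((Over.forget _).map (fibι (toPt X) b)) := h2
  exact isIso_of_reflects_iso (fibι (toPt X) b) (Over.forget _)

theorem genRC_toPt {X : CSch} (hX : IsVar X) (hR : IsRC X) {n : ℕ} (hd : dim X ≤ n) :
    GenRC (toPt X) n := by
  refine ⟨⊤, ?_, fun b _ => ?_⟩
  · exact ⟨(show ptC.left from IsLocalRing.closedPoint ℂ), trivial⟩
  · have h := isIso_fibι X b
    have e : fib (toPt X) b ≅ X := asIso (fibι (toPt X) b)
    exact ⟨hX.of_iso e.symm, hR.of_iso e.symm, by rw [dim_of_iso e.symm]; exact hd⟩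

theorem hh_ptC (a : HH ptC) : a = 0 := by
  have h1 : TotallyDisconnectedSpace (Pt ptC) := by
    have := subsingleton_pt
    infer_instance
  have h2 : IsZero (((AlgebraicTopology.singularHomologyFunctor AddCommGrpCat.{0} 2).obj
      (AddCommGrpCat.of ℤ)).obj (TopCat.of (Pt ptC))) :=
    AlgebraicTopology.isZero_singularHomologyFunctor_of_totallyDisconnectedSpace _ _ _ _
      (by norm_num)
  have h3 : Subsingleton (HH ptC) := AddCommGrpCat.subsingleton_of_isZero h2
  exact Subsingleton.elim _ _

end Pool.Agent.H11.IC
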